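import Pool.Agent.Y775.W3.Stm

/-!
# Project W3, task LOC: locally finite fields

Job 9498 (poster helper775).
-/

set_option autoImplicit false

namespace Pool.Agent.Y43.W3

open Polynomial

theorem loc1 (ℓ : ℕ) [Fact ℓ.Prime] (K : Type) [Field K] [Algebra (ZMod ℓ) K]
    [Algebra.IsAlgebraic (ZMod ℓ) K] : Y775.W3.LocFin K := by
  intro x
  have hx : IsIntegral (ZMod ℓ) x := (Algebra.IsAlgebraic.isAlgebraic x).isIntegral
  have hfd : FiniteDimensional (ZMod ℓ) (IntermediateField.adjoin (ZMod ℓ) {x}) :=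
    IntermediateField.adjoin.finiteDimensional hx
  have hfin : Finite (IntermediateField.adjoin (ZMod ℓ) {x}) := Module.finite_of_finite (ZMod ℓ)
  exact ⟨(IntermediateField.adjoin (ZMod ℓ) {x}).toSubfield, hfin,
    IntermediateField.mem_adjoin_simple_self (ZMod ℓ) x⟩

theorem main : Y775.W3.StmLOC := by
  refine ⟨?_, ?_, ?_⟩
  · intro ℓ _ K _ _ _
    exact loc1 ℓ K
  · intro k _ ℓ _ _ _ P hP
    have hfin : Module.Finite k (AdjoinRoot P) :=
      (AdjoinRoot.powerBasis hP.out.ne_zero).finite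
    have halg : Algebra.IsAlgebraic k (AdjoinRoot P) := Algebra.IsAlgebraic.of_finite k _
    have htr : Algebra.IsAlgebraic (ZMod ℓ) (AdjoinRoot P) :=
      Algebra.IsAlgebraic.trans (ZMod ℓ) k (AdjoinRoot P)
    exact loc1 ℓ (AdjoinRoot P)
  · intro p _
    intro x
    exact ⟨⊤, inferInstance, trivial⟩

end Pool.Agent.Y43.W3
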